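import Mathlib

set_option autoImplicit false
universe u

open scoped commutatorElement

namespace Pool.Agent.KS6_69.FCG

abbrev R := UnitAddCircle

theorem baer (Λ : Type u) : Module.Baer ℤ (Λ →₀ R) := by
  classical
  letI : DivisibleBy (Λ →₀ R) ℤ := divisibleByOfSMulRightSurj _ _ (fun {n} hn f => by
    refine ⟨f.mapRange (fun a => if a = 0 then 0 else DivisibleBy.div a n) (by simp), ?_⟩
    ext x
    simp only [Finsupp.coe_smul, Pi.smul_apply, Finsupp.mapRange_apply]
    split_ifs with h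
    · simp [h]
    · exact DivisibleBy.div_cancel _ hn)
  exact Module.Baer.of_divisible _

theorem retr (Λ : Type u) : ∃ P : (Λ → R) →+ (Λ → R),
    (∀ ω, {l | ω l ≠ 0}.Finite → P ω = 0) ∧ ∀ ω, {l | P ω l ≠ ω l}.Finite := by
  obtain ⟨r, hr⟩ := (baer Λ).extension_property_addMonoidHom
    (Finsupp.coeFnAddHom : (Λ →₀ R) →+ (Λ → R)) DFunLike.coe_injective (AddMonoidHom.id _)
  refine ⟨AddMonoidHom.id _ - Finsupp.coeFnAddHom.comp r, fun ω hω => ?_, fun ω => ?_⟩
  · have h1 := DFunLike.congr_fun hr (Finsupp.ofSupportFinite ω hω)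
    have h2 : Finsupp.coeFnAddHom (Finsupp.ofSupportFinite ω hω) = ω := rfl
    simp only [AddMonoidHom.comp_apply, h2, AddMonoidHom.id_apply] at h1
    simp only [AddMonoidHom.sub_apply, AddMonoidHom.id_apply, AddMonoidHom.comp_apply, h1, h2,
      sub_self]
  · refine (r ω).support.finite_toSet.subset fun l hl => ?_
    simp only [Finset.mem_coe, Finsupp.mem_support_iff]
    intro h
    apply hl
    simp [h]

theorem vs (p : ℕ) [Fact p.Prime] (W : Type u) [AddCommGroup W] [Module (ZMod p) W] :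
    ∃ (Λ : Type u) (φ : W →+ (Λ →₀ R)), Function.Injective φ :=
  ⟨_, (Finsupp.mapRange.addMonoidHom (ZMod.toAddCircle (N := p))).comp
      (Module.Basis.ofVectorSpace (ZMod p) W).repr.toLinearMap.toAddMonoidHom,
    (Finsupp.mapRange_injective _ (map_zero _) (ZMod.toAddCircle_injective p)).comp
      (Module.Basis.ofVectorSpace (ZMod p) W).repr.injective⟩

theorem ab (e : ℕ) : ∀ (V : Type u) [AddCommGroup V], e ≠ 0 → (∀ v : V, e • v = 0) →
    ∃ (Λ : Type u) (χ : Λ → V →+ R), (∀ v, {l | χ l v ≠ 0}.Finite) ∧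
      ∀ v, (∀ l, χ l v = 0) → v = 0 := by
  induction e using Nat.strong_induction_on with
  | _ e ih =>
  intro V _ he hV
  by_cases h1 : e = 1
  · subst h1
    exact ⟨PEmpty, fun l => l.elim, fun v => Set.toFinite _, fun v _ => by simpa using hV v⟩
  obtain ⟨m, hm⟩ := Nat.minFac_dvd e
  have hp : (Nat.minFac e).Prime := Nat.minFac_prime h1
  generalize Nat.minFac e = p at hm hp
  haveI := Fact.mk hp
  have hm0 : m ≠ 0 := by rintro rfl; simp at hm; exact he hm
  let W : AddSubgroup V := (nsmulAddMonoidHom p).ker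
  let W' : AddSubgroup V := (nsmulAddMonoidHom m).ker
  obtain ⟨Λ₂, χ₂, hf₂, hs₂⟩ := ih m (by
    have := hp.two_le
    have := Nat.pos_of_ne_zero hm0
    nlinarith) W' hm0 (fun v => Subtype.ext v.2)
  letI : Module (ZMod p) W := AddCommGroup.zmodModule (fun v => Subtype.ext v.2)
  obtain ⟨Λ₁, φ₁, hφ₁⟩ := vs p W
  obtain ⟨φ, hφ⟩ := (baer _).extension_property_addMonoidHom W.subtype W.subtype_injective φ₁
  let ψ : V →+ W' := (nsmulAddMonoidHom p).codRestrict W' (fun v => by
    show m • p • v = 0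
    rw [smul_smul, mul_comm, ← hm, hV])
  refine ⟨_ ⊕ Λ₂, Sum.elim (fun l => (Finsupp.applyAddHom l).comp φ) (fun l => (χ₂ l).comp ψ),
    fun v => ?_, fun v hv => ?_⟩
  · refine (((φ v).support.finite_toSet.image Sum.inl).union
      ((hf₂ (ψ v)).image Sum.inr)).subset ?_
    rintro (l | l) hl
    · exact Or.inl ⟨l, by simpa using hl, rfl⟩
    · exact Or.inr ⟨l, hl, rfl⟩
  · have h2 : ψ v = 0 := hs₂ _ fun l => hv (Sum.inr l)
    have h3 : v ∈ W := congrArg Subtype.val h2
    have h4 := DFunLike.congr_fun hφ ⟨v, h3⟩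
    have h5 : φ v = 0 := Finsupp.ext fun l => hv (Sum.inl l)
    have h6 : φ₁ ⟨v, h3⟩ = φ₁ 0 := by rw [← h4, map_zero]; exact h5
    exact congrArg Subtype.val (hφ₁ h6)

theorem FI {G : Type u} {α : Type*} [Group G] (H : Subgroup G) (φ : G → α) (hφ : (Set.range φ).Finite)
    (h : ∀ g g', φ g = φ g' → g⁻¹ * g' ∈ H) : H.FiniteIndex := by
  haveI := hφ.to_subtype
  haveI : Finite (G ⧸ H) := Finite.of_injective
    (fun q : G ⧸ H => (⟨φ q.out, _, rfl⟩ : Set.range φ)) fun q q' hq => by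
      rw [← q.out_eq, ← q'.out_eq]
      exact QuotientGroup.eq.2 (h _ _ (congrArg Subtype.val hq))
  exact Subgroup.finiteIndex_of_finite_quotient

theorem reps {G : Type u} [Group G] (J H : Subgroup G) [H.FiniteIndex] :
    ∃ X : Finset G, (∀ x ∈ X, x ∈ J) ∧ ∀ y ∈ J, ∃ x ∈ X, x⁻¹ * y ∈ H := by
  classical
  have : ∀ q : G ⧸ H, ∃ x ∈ J, ∀ y ∈ J, (y : G ⧸ H) = q → x⁻¹ * y ∈ H := by
    intro q
    by_cases hq : ∃ y ∈ J, (y : G ⧸ H) = q
    · obtain ⟨x, hx, e⟩ := hq
      exact ⟨x, hx, fun y _ hy => QuotientGroup.eq.1 (e.trans hy.symm)⟩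
    · exact ⟨1, J.one_mem, fun y hy e => absurd ⟨y, hy, e⟩ hq⟩
  choose s hs1 hs2 using this
  haveI := Fintype.ofFinite (G ⧸ H)
  refine ⟨Finset.univ.image s, fun x hx => ?_, fun y hy => ⟨s y, ?_, hs2 _ y hy rfl⟩⟩
  · obtain ⟨q, _, rfl⟩ := Finset.mem_image.1 hx
    exact hs1 q
  · exact Finset.mem_image_of_mem _ (Finset.mem_univ _)

/-- point-finite family of finite-index normal subgroups with intersection `N`. -/
def PF (G : Type u) [Group G] (N : Subgroup G) : Prop :=
  ∃ (ι : Type u) (U : ι → Subgroup G), (∀ i, (U i).Normal ∧ (U i).FiniteIndex) ∧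
    (∀ g, {i | g ∉ U i}.Finite) ∧ ∀ g, (∀ i, g ∈ U i) ↔ g ∈ N

theorem pf_ab {G : Type u} [Group G] (N : Subgroup G) [N.Normal] (e : ℕ) (he : e ≠ 0)
    (hc : ∀ a b : G, ⁅a, b⁆ ∈ N) (hp : ∀ a : G, a ^ e ∈ N) : PF G N := by
  letI : CommGroup (G ⧸ N) := { (inferInstance : Group (G ⧸ N)) with
    mul_comm := fun a b => by
      induction a using QuotientGroup.induction_on with | H a =>
      induction b using QuotientGroup.induction_on with | H b =>
      rw [← QuotientGroup.mk_mul, ← QuotientGroup.mk_mul, QuotientGroup.eq]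
      have := hc b⁻¹ a⁻¹
      rw [commutatorElement_def] at this
      convert this using 1
      group }
  have hV : ∀ v : Additive (G ⧸ N), e • v = 0 := fun v => by
    induction v using Additive.rec with | _ v =>
    induction v using QuotientGroup.induction_on with | H a =>
    rw [← ofMul_pow, ← QuotientGroup.mk_pow, (QuotientGroup.eq_one_iff _).2 (hp a)]
    rfl
  obtain ⟨Λ, χ, h1, h2⟩ := ab e (Additive (G ⧸ N)) he hV
  let f : Λ → G →* Multiplicative R := fun l =>
    (AddMonoidHom.toMultiplicativeRight (χ l)).comp (QuotientGroup.mk' N)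
  refine ⟨Λ, fun l => (f l).ker, fun l => ⟨inferInstance, ?_⟩, fun g => h1 _, fun g => ⟨fun h => ?_, fun h l => ?_⟩⟩
  · refine FI _ (fun g => χ l (Additive.ofMul (g : G ⧸ N))) ?_ ?_
    · refine (AddCircle.finite_torsion (1 : ℝ) (Nat.pos_of_ne_zero he)).subset ?_
      rintro _ ⟨g, rfl⟩
      show e • _ = _
      rw [← map_nsmul, hV, map_zero]
    · intro g g' h
      have : f l g = f l g' := h
      rw [MonoidHom.mem_ker, map_mul, map_inv, this, inv_mul_cancel]
  · exact (QuotientGroup.eq_one_iff _).1 (h2 (Additive.ofMul (g : G ⧸ N)) h)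
  · show f l g = 1
    simp only [f, MonoidHom.comp_apply, QuotientGroup.mk'_apply,
      (QuotientGroup.eq_one_iff _).2 h, map_one]

end Pool.Agent.KS6_69.FCG
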