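import Pool.Agent.KS6_69.FCG.Twist

set_option autoImplicit false
universe u

open scoped commutatorElement

namespace Pool.Agent.KS6_69.FCG

variable {G : Type u} [Group G]

/-- the centralizer of the conjugacy closure of `S`. -/
def Cn (S : Set G) : Subgroup G where
  carrier := {g | ∀ s ∈ S, ∀ h : G, Commute g (h * s * h⁻¹)}
  one_mem' := fun _ _ _ => Commute.one_left _
  mul_mem' := fun ha hb s hs h => (ha s hs h).mul_left (hb s hs h)
  inv_mem' := fun ha s hs h => (ha s hs h).inv_left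

instance (S : Set G) : (Cn S).Normal := ⟨fun g hg k s hs h => by
  have := (hg s hs (k⁻¹ * h)).map (MulAut.conj k)
  simp only [MulAut.conj_apply] at this
  convert this using 1
  group⟩

theorem Cn_anti {S S' : Set G} (h : S ⊆ S') : Cn S' ≤ Cn S := fun _ hg s hs => hg s (h hs)

theorem Cn_comm {S : Set G} {g s : G} (hg : g ∈ Cn S) (hs : s ∈ S) : Commute g s := by
  simpa using hg s hs 1

theorem Cn_union {S S' : Set G} {g : G} : g ∈ Cn (S ∪ S') ↔ g ∈ Cn S ∧ g ∈ Cn S' :=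
  ⟨fun h => ⟨Cn_anti Set.subset_union_left h, Cn_anti Set.subset_union_right h⟩,
    fun h s hs => hs.elim (h.1 s) (h.2 s)⟩

theorem Cn_fi (hFC : FC G) {S : Set G} (hS : S.Finite) : (Cn S).FiniteIndex := by
  have h1 : (⋃ s ∈ S, {h : G | IsConj s h}).Finite := hS.biUnion fun s _ => hFC s
  haveI := h1.to_subtype
  refine FI _ (fun g (x : (⋃ s ∈ S, {h : G | IsConj s h})) => g⁻¹ * x * g) ?_ ?_
  · refine (Set.Finite.pi' fun x : (⋃ s ∈ S, {h : G | IsConj s h}) => hFC x).subset ?_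
    rintro _ ⟨g, rfl⟩ x
    exact isConj_iff.2 ⟨g⁻¹, by simp⟩
  · intro g g' e s hs h
    have := congrFun e ⟨g * h * s * (g * h)⁻¹, Set.mem_biUnion hs (isConj_iff.2 ⟨g * h, rfl⟩)⟩
    simp only at this
    show g⁻¹ * g' * (h * s * h⁻¹) = h * s * h⁻¹ * (g⁻¹ * g')
    calc g⁻¹ * g' * (h * s * h⁻¹) = g⁻¹ * g' * (g⁻¹ * (g * h * s * (g * h)⁻¹) * g) := by group
      _ = _ := by rw [this]; group

def Closed (L : Subgroup G) : Prop :=
  L.Normal ∧ ∀ E : Set G, E.Finite → E ⊆ L → ∀ g, ∃ l ∈ L, l⁻¹ * g ∈ Cn E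

theorem Closed.cen {L : Subgroup G} (hL : Closed L) {l : G} (hl : l ∈ L)
    (h : ∀ x ∈ L, Commute l x) : l ∈ Subgroup.center G := by
  refine Subgroup.mem_center_iff.2 fun g => ?_
  obtain ⟨x, hx, hc⟩ := hL.2 {l} (Set.finite_singleton l) (by simpa using hl) g
  have := (h x hx).mul_right (Cn_comm hc rfl).symm
  rw [mul_inv_cancel_left] at this
  exact this.symm

theorem Closed.k1 (hFC : FC G) {L : Subgroup G} (hL : Closed L) (w : G) :
    ∃ E : Set G, E.Finite ∧ E ⊆ L ∧ ∀ x ∈ L, x ∈ Cn E → ⁅x, w⁆ ∈ Subgroup.center G := by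
  haveI := hL.1
  let F : Set G := (Set.range fun x : G => ⁅x, w⁆) ∩ L
  have hF : F.Finite := (hFC.comm w).inter_of_left _
  haveI := Cn_fi hFC hF
  obtain ⟨X, hX1, hX2⟩ := reps L (Cn F)
  refine ⟨X, X.finite_toSet, hX1, fun x hx hc => Subgroup.mem_center_iff.2 fun g => ?_⟩
  obtain ⟨l, hl, hg⟩ := hL.2 F hF Set.inter_subset_right g
  obtain ⟨y, hy, hy2⟩ := hX2 l hl
  have h1 : ⁅x, w⁆ ∈ F := ⟨⟨x, rfl⟩, by
    rw [commutatorElement_def, mul_assoc, mul_assoc, ← mul_assoc w]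
    exact L.mul_mem hx (Subgroup.Normal.conj_mem inferInstance _ (L.inv_mem hx) w)⟩
  have h2 : ⁅x, w⁆ ∈ Cn (X : Set G) := by
    rw [commutatorElement_def, mul_assoc, mul_assoc, ← mul_assoc w]
    exact Subgroup.mul_mem _ hc (Subgroup.Normal.conj_mem inferInstance _ (Subgroup.inv_mem _ hc) w)
  have := ((Cn_comm h2 hy).symm.mul_left (Cn_comm hy2 h1)).mul_left (Cn_comm hg h1)
  rw [mul_inv_cancel_left, mul_inv_cancel_left] at this
  exact this

def Qs (L L' : Subgroup G) (M : Set G) : Subgroup G where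
  carrier := {w | ∃ E : Set G, E.Finite ∧ E ⊆ L ∧ ∀ x ∈ L', x ∈ Cn (E ∪ M) → Commute x w}
  one_mem' := ⟨∅, Set.finite_empty, Set.empty_subset _, fun _ _ _ => Commute.one_right _⟩
  mul_mem' := by
    rintro a b ⟨E, h1, h2, h3⟩ ⟨E', h1', h2', h3'⟩
    refine ⟨E ∪ E', h1.union h1', Set.union_subset h2 h2', fun x hx hc => ?_⟩
    exact (h3 x hx (Cn_anti (by grind) hc)).mul_right (h3' x hx (Cn_anti (by grind) hc))
  inv_mem' := by
    rintro a ⟨E, h1, h2, h3⟩
    exact ⟨E, h1, h2, fun x hx hc => (h3 x hx hc).inv_right⟩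

theorem Qs_normal (L L' : Subgroup G) [L'.Normal] (M : Set G) : (Qs L L' M).Normal := ⟨by
  rintro a ⟨E, h1, h2, h3⟩ k
  refine ⟨E, h1, h2, fun x hx hc => ?_⟩
  have := (h3 (k⁻¹ * x * k⁻¹⁻¹) (Subgroup.Normal.conj_mem inferInstance _ hx _)
    (Subgroup.Normal.conj_mem inferInstance _ hc _)).map (MulAut.conj k)
  simp only [MulAut.conj_apply] at this
  convert this using 1
  group⟩

theorem Qs_mono {L₁ L₂ L₁' L₂' : Subgroup G} {M₁ M₂ : Set G} (h1 : L₁ ≤ L₂) (h2 : L₂' ≤ L₁')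
    (h3 : M₁ ⊆ M₂) : Qs L₁ L₁' M₁ ≤ Qs L₂ L₂' M₂ := by
  rintro w ⟨E, a1, a2, a3⟩
  exact ⟨E, a1, a2.trans h1, fun x hx hc => a3 x (h2 hx) (Cn_anti (by grind) hc)⟩

theorem center_le_Qs (L L' : Subgroup G) (M : Set G) : Subgroup.center G ≤ Qs L L' M :=
  fun _ hz => ⟨∅, Set.finite_empty, Set.empty_subset _,
    fun x _ _ => Subgroup.mem_center_iff.1 hz x⟩

def G1 (G : Type u) [Group G] : Subgroup G := ⨅ L : {L : Subgroup G // Closed L}, Qs L.1 L.1 ∅

instance : (G1 G).Normal :=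
  Subgroup.normal_iInf_normal fun L => haveI := L.2.1; Qs_normal _ _ _

theorem conj_eq {x w : G} (h : ⁅x, w⁆ ∈ Subgroup.center G) : w⁻¹ * x * w = ⁅x, w⁆ * x := by
  have := Subgroup.mem_center_iff.1 h w⁻¹
  rw [commutatorElement_def] at this ⊢
  calc w⁻¹ * x * w = w⁻¹ * (x * w * x⁻¹ * w⁻¹) * w * x := by group
    _ = _ := by rw [this]; group

theorem comm_mem (hFC : FC G) (a b : G) : ⁅a, b⁆ ∈ G1 G := by
  refine Subgroup.mem_iInf.2 fun L => ?_
  obtain ⟨E, h1, h2, h3⟩ := L.2.k1 hFC a⁻¹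
  obtain ⟨E', h1', h2', h3'⟩ := L.2.k1 hFC b⁻¹
  refine ⟨E ∪ E', h1.union h1', Set.union_subset h2 h2', fun x hx hc => ?_⟩
  have e1 := h3 x hx (Cn_anti (by grind) hc)
  have e2 := h3' x hx (Cn_anti (by grind) hc)
  have f1 := conj_eq e1
  have f2 := conj_eq e2
  generalize ⁅x, a⁻¹⁆ = s at e1 f1
  generalize ⁅x, b⁻¹⁆ = t at e2 f2
  have c1 := Subgroup.mem_center_iff.1 e1
  have c2 := Subgroup.mem_center_iff.1 e2
  rw [inv_inv] at f1 f2
  have g1 : a * x = s * x * a := by rw [← f1]; group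
  have g2 : b * x = t * x * b := by rw [← f2]; group
  have k1 : a * b * x = s * t * x * (a * b) := by
    calc a * b * x = a * (b * x) := by group
      _ = (a * t) * x * b := by rw [g2]; group
      _ = t * (a * x) * b := by rw [c2 a]; group
      _ = (t * s) * x * (a * b) := by rw [g1]; group
      _ = _ := by rw [c1 t]
  have k2 : b * a * x = s * t * x * (b * a) := by
    calc b * a * x = b * (a * x) := by group
      _ = (b * s) * x * a := by rw [g1]; group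
      _ = s * (b * x) * a := by rw [c1 b]; group
      _ = _ := by rw [g2]; group
  have hst : ∀ y, y * (s * t) = s * t * y := Subgroup.mem_center_iff.1 (Subgroup.mul_mem _ e1 e2)
  have k3 : x * (b * a)⁻¹ = s * t * (b * a)⁻¹ * x := by
    calc x * (b * a)⁻¹ = (b * a)⁻¹ * (b * a * x) * (b * a)⁻¹ := by group
      _ = ((b * a)⁻¹ * (s * t)) * x := by rw [k2]; group
      _ = _ := by rw [hst]
  show x * ⁅a, b⁆ = ⁅a, b⁆ * x
  have k4 : s * t * (x * ⁅a, b⁆) = s * t * (⁅a, b⁆ * x) := by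
    calc s * t * (x * ⁅a, b⁆) = (s * t * x * (a * b)) * (b * a)⁻¹ := by
          rw [commutatorElement_def]; group
      _ = a * b * (x * (b * a)⁻¹) := by rw [← k1]; group
      _ = (a * b * (s * t)) * (b * a)⁻¹ * x := by rw [k3]; group
      _ = _ := by rw [hst, commutatorElement_def]; group
  exact mul_left_cancel k4

theorem pow_mem (hFC : FC G) (e : ℕ)
    (he : ∀ t ∈ Subgroup.center G, t ∈ commutator G → t ^ e = 1) (a : G) : a ^ e ∈ G1 G := by
  refine Subgroup.mem_iInf.2 fun L => ?_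
  obtain ⟨E, h1, h2, h3⟩ := L.2.k1 hFC a
  refine ⟨E, h1, h2, fun x hx hc => ?_⟩
  have e1 := h3 x hx (Cn_anti (by grind) hc)
  have e2 := he _ e1 (Subgroup.commutator_mem_commutator (Subgroup.mem_top x) (Subgroup.mem_top a))
  have f1 : x * a * x⁻¹ = ⁅x, a⁆ * a := by rw [commutatorElement_def]; group
  have c1 : Commute ⁅x, a⁆ a := (Subgroup.mem_center_iff.1 e1 a).symm
  have f2 : x * a ^ e * x⁻¹ = a ^ e := by
    rw [← conj_pow, f1, c1.mul_pow, e2, one_mul]
  show x * a ^ e = a ^ e * x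
  rw [← f2]
  conv_lhs => rw [f2]
  group

theorem center_le_G1 : Subgroup.center G ≤ G1 G :=
  le_iInf fun _ => center_le_Qs _ _ _

end Pool.Agent.KS6_69.FCG
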