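import Pool.Agent.KS6_69.FCG.Closed

set_option autoImplicit false
universe u

open scoped commutatorElement

namespace Pool.Agent.KS6_69.FCG

variable {G : Type u} [Group G]

def Jm (L : Subgroup G) [L.Normal] (M : Set G) : Subgroup G where
  carrier := {g | ∀ E : Set G, E.Finite → E ⊆ L → ∃ l ∈ L, l⁻¹ * g ∈ Cn (E ∪ M)}
  one_mem' := fun _ _ _ => ⟨1, L.one_mem, by simp⟩
  mul_mem' := by
    intro a b ha hb E h1 h2
    obtain ⟨l, hl, hc⟩ := ha E h1 h2
    obtain ⟨l', hl', hc'⟩ := hb E h1 h2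
    refine ⟨a * l' * a⁻¹ * l, L.mul_mem (Subgroup.Normal.conj_mem inferInstance _ hl' _) hl, ?_⟩
    convert Subgroup.mul_mem _ hc hc' using 1
    group
  inv_mem' := by
    intro a ha E h1 h2
    obtain ⟨l, hl, hc⟩ := ha E h1 h2
    refine ⟨a⁻¹ * l⁻¹ * a⁻¹⁻¹, Subgroup.Normal.conj_mem inferInstance _ (L.inv_mem hl) _, ?_⟩
    convert Subgroup.inv_mem _ hc using 1
    group

theorem k3 (hFC : FC G) (hT : Set.Finite {t | t ∈ Subgroup.center G ∧ t ∈ commutator G})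
    {L L' : Subgroup G} [L.Normal] (hL : Closed L) [L'.Normal] (hLL : L ≤ L') (M : Set G) {x : G}
    (hx : x ∈ L') (hJ : x ∈ Jm L M) :
    ∃ U : Subgroup G, U.Normal ∧ U.FiniteIndex ∧ Qs L L' M ≤ U ∧ ∀ w ∈ U, ∀ E : Set G,
      E.Finite → E ⊆ L → ∃ l ∈ L, l⁻¹ * x ∈ Cn (E ∪ M) ∧ Commute (l⁻¹ * x) w := by
  classical
  have hE : ∀ E : Finset L, ∃ l ∈ L, l⁻¹ * x ∈ Cn (Subtype.val '' (E : Set L) ∪ M) := fun E =>
    hJ _ (E.finite_toSet.image _) (by rintro _ ⟨y, _, rfl⟩; exact y.2)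
  choose l hl hc using hE
  let 𝒰 : Ultrafilter (Finset L) := Ultrafilter.of Filter.atTop
  have hev : ∀ E : Set G, E.Finite → E ⊆ L → ∀ᶠ E' in (𝒰 : Filter (Finset L)),
      (l E')⁻¹ * x ∈ Cn (E ∪ M) := by
    intro E h1 h2
    have hfin : (Subtype.val ⁻¹' E : Set L).Finite := h1.preimage Subtype.val_injective.injOn
    refine Ultrafilter.of_le _ ((Filter.eventually_ge_atTop hfin.toFinset).mono fun E' hE' => ?_)
    refine Cn_anti (Set.union_subset_union_left _ fun y hy => ?_) (hc E')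
    exact ⟨⟨y, h2 hy⟩, hE' (hfin.mem_toFinset.2 hy), rfl⟩
  let S : Subgroup G :=
    { carrier := {g | ∀ᶠ E in (𝒰 : Filter (Finset L)), Commute ((l E)⁻¹ * x) g}
      one_mem' := Filter.Eventually.of_forall fun _ => Commute.one_right _
      mul_mem' := fun ha hb => (ha.and hb).mono fun _ h => h.1.mul_right h.2
      inv_mem' := fun ha => ha.mono fun _ h => h.inv_right }
  have hd : ∀ g : G, ∃ d, ∀ᶠ E in (𝒰 : Filter (Finset L)), ⁅((l E)⁻¹ * x)⁻¹, g⁆ = d := by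
    intro g
    have h1 : ∀ᶠ E in (𝒰 : Filter (Finset L)), ∃ d ∈ Set.range fun y : G => ⁅y, g⁆,
        ⁅((l E)⁻¹ * x)⁻¹, g⁆ = d := Filter.Eventually.of_forall fun E => ⟨_, ⟨_, rfl⟩, rfl⟩
    obtain ⟨d, _, hd⟩ := (Ultrafilter.eventually_exists_mem_iff (hFC.comm g)).1 h1
    exact ⟨d, hd⟩
  choose d hd using hd
  have hdc : ∀ g, ∀ y ∈ L, Commute (d g) y := by
    intro g y hy
    obtain ⟨E, h1, h2⟩ := ((hd g).and (hev {y} (Set.finite_singleton y) (by simpa using hy))).exists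
    refine Cn_comm (S := {y} ∪ M) ?_ (Or.inl rfl)
    rw [← h1, commutatorElement_def, mul_assoc, mul_assoc, ← mul_assoc g]
    exact Subgroup.mul_mem _ (Subgroup.inv_mem _ h2)
      (Subgroup.Normal.conj_mem inferInstance _ (by rwa [inv_inv]) _)
  have hdb : ∀ g, d g * ⁅g, x⁻¹⁆ ∈ L ⊓ commutator G := by
    intro g
    obtain ⟨E, h1⟩ := (hd g).exists
    have e1 : d g * ⁅g, x⁻¹⁆ = x⁻¹ * ⁅l E, g⁆ * x⁻¹⁻¹ := by
      rw [← h1]
      simp only [commutatorElement_def]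
      group
    rw [e1]
    refine Subgroup.Normal.conj_mem inferInstance _ (Subgroup.mem_inf.2 ⟨?_,
      Subgroup.commutator_mem_commutator (Subgroup.mem_top _) (Subgroup.mem_top _)⟩) _
    rw [commutatorElement_def, mul_assoc, mul_assoc, ← mul_assoc g]
    exact L.mul_mem (hl E) (Subgroup.Normal.conj_mem inferInstance _ (L.inv_mem (hl E)) g)
  have hS : S.FiniteIndex := by
    refine FI _ d ?_ ?_
    · have hsec : ∀ b : Set.range fun y : G => ⁅y, x⁻¹⁆, ∃ g, ⁅g, x⁻¹⁆ = b := fun b => b.2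
      choose s hs using hsec
      haveI := (hFC.comm x⁻¹).to_subtype
      refine (hT.image2 (fun t u => t * u) (Set.finite_range fun b => d (s b))).subset ?_
      rintro _ ⟨g, rfl⟩
      have h1 := Subgroup.mul_mem _ (hdb g) (Subgroup.inv_mem _ (hdb (s ⟨_, g, rfl⟩)))
      rw [hs, mul_inv_rev, mul_assoc, mul_inv_cancel_left] at h1
      exact ⟨d g * (d (s ⟨_, g, rfl⟩))⁻¹, ⟨hL.cen h1.1 fun y hy =>
        (hdc g y hy).mul_left (hdc _ y hy).inv_left, h1.2⟩, _, ⟨⟨_, g, rfl⟩, rfl⟩, by simp⟩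
    · intro g g' e
      refine ((hd g).and (hd g')).mono fun E h => ?_
      have := h.1.trans (e.trans h.2.symm)
      generalize (l E)⁻¹ * x = c at this
      simp only [commutatorElement_def, inv_inv] at this
      show c * (g⁻¹ * g') = g⁻¹ * g' * c
      calc c * (g⁻¹ * g') = g⁻¹ * c * (c⁻¹ * g * c * g⁻¹) * g' := by group
        _ = _ := by rw [this]; group
  haveI := Qs_normal L L' M
  refine ⟨S.normalCore, inferInstance, inferInstance, Subgroup.normal_le_normalCore.2 ?_,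
    fun w hw E h1 h2 => ?_⟩
  · rintro w ⟨E, h1, h2, h3⟩
    exact (hev E h1 h2).mono fun E' h => h3 _ (L'.mul_mem (L'.inv_mem (hLL (hl E'))) hx) h
  · obtain ⟨E', a1, a2⟩ := ((hev E h1 h2).and (S.normalCore_le hw)).exists
    exact ⟨l E', hl E', a1, a2⟩

theorem k4 (hFC : FC G) {L : Subgroup G} [L.Normal] (hL : Closed L) {M : Set G} (hM : M.Finite) :
    ∃ E : Set G, E.Finite ∧ E ⊆ L ∧ Cn (E ∪ M) ≤ Jm L M := by
  haveI := Cn_fi hFC hM
  let I : Set G → Subgroup (G ⧸ Cn M) := fun E => (L ⊓ Cn E).map (QuotientGroup.mk' _)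
  obtain ⟨_, ⟨E₀, ⟨h1, h2⟩, rfl⟩, hmin⟩ := WellFounded.has_min
    (wellFounded_lt (α := Subgroup (G ⧸ Cn M))) (I '' {E | E.Finite ∧ E ⊆ L})
    ⟨_, ∅, ⟨Set.finite_empty, Set.empty_subset _⟩, rfl⟩
  refine ⟨E₀, h1, h2, fun c hc E a1 a2 => ?_⟩
  have hle : I (E₀ ∪ E) ≤ I E₀ :=
    Subgroup.map_mono (inf_le_inf_left _ (Cn_anti Set.subset_union_left))
  have heq : I (E₀ ∪ E) = I E₀ := by
    by_contra hne
    exact hmin _ ⟨_, ⟨h1.union a1, Set.union_subset h2 a2⟩, rfl⟩ (lt_of_le_of_ne hle hne)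
  obtain ⟨l, hl, hc'⟩ := hL.2 _ (h1.union a1) (Set.union_subset h2 a2) c
  rw [Cn_union] at hc
  have hl0 : l ∈ Cn E₀ := by
    have := Subgroup.mul_mem _ hc.1 (Subgroup.inv_mem _ (Cn_union.1 hc').1)
    simpa using this
  have : (l : G ⧸ Cn M) ∈ I (E₀ ∪ E) := by rw [heq]; exact ⟨l, ⟨hl, hl0⟩, rfl⟩
  obtain ⟨l', ⟨b1, b2⟩, b3⟩ := this
  refine ⟨l * l'⁻¹, L.mul_mem hl (L.inv_mem b1), Cn_union.2 ⟨?_, ?_⟩⟩
  · convert Subgroup.mul_mem _ (Cn_union.1 b2).2 (Cn_union.1 hc').2 using 1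
    group
  · have b4 : l'⁻¹ * l ∈ Cn M := QuotientGroup.eq.1 b3
    have b5 := Subgroup.Normal.conj_mem inferInstance _ (Subgroup.inv_mem _ b4) l
    convert Subgroup.mul_mem _ b5 hc.2 using 1
    group

theorem Jm_fi (hFC : FC G) {L : Subgroup G} [L.Normal] (hL : Closed L) {M : Set G}
    (hM : M.Finite) : (Jm L M).FiniteIndex := by
  obtain ⟨E, h1, _, h3⟩ := k4 hFC hL hM
  haveI := Cn_fi hFC (h1.union hM)
  exact Subgroup.finiteIndex_of_le h3

theorem ncl {S : Set G} {x : G} (hx : x ∈ Subgroup.normalClosure S) :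
    ∃ S₀ : Set G, S₀.Finite ∧ S₀ ⊆ S ∧ Cn S₀ ≤ Cn {x} := by
  let N : Subgroup G :=
    { carrier := {x | ∃ S₀ : Set G, S₀.Finite ∧ S₀ ⊆ S ∧ Cn S₀ ≤ Cn {x}}
      one_mem' := ⟨∅, Set.finite_empty, Set.empty_subset _, fun g _ s hs h => by
        rw [hs]; simp⟩
      mul_mem' := by
        rintro a b ⟨A, a1, a2, a3⟩ ⟨B, b1, b2, b3⟩
        refine ⟨A ∪ B, a1.union b1, Set.union_subset a2 b2, fun g hg s hs h => ?_⟩
        rw [hs]
        have := (a3 (Cn_union.1 hg).1 a rfl h).mul_right (b3 (Cn_union.1 hg).2 b rfl h)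
        rwa [conj_mul] at this
      inv_mem' := by
        rintro a ⟨A, a1, a2, a3⟩
        refine ⟨A, a1, a2, fun g hg s hs h => ?_⟩
        rw [hs]
        convert (a3 hg a rfl h).inv_right using 1
        group }
  haveI : N.Normal := ⟨by
    rintro a ⟨A, a1, a2, a3⟩ k
    refine ⟨A, a1, a2, fun g hg s hs h => ?_⟩
    rw [hs]
    convert a3 hg a rfl (h * k) using 1
    group⟩
  exact Subgroup.normalClosure_le_normal (N := N)
    (fun y hy => ⟨{y}, Set.finite_singleton y, by simpa using hy, le_rfl⟩) hx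

end Pool.Agent.KS6_69.FCG
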