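import Pool.Agent.KS6_69.FCG.Ab

set_option autoImplicit false
universe u

open scoped commutatorElement IsMulCommutative

namespace Pool.Agent.KS6_69.FCG

theorem sep (A : Type u) [AddCommGroup A] [Finite A] :
    ∃ χ : A → A →+ R, ∀ a, χ a a = 0 → a = 0 := by
  obtain ⟨Λ, χ, _, h⟩ := ab (Nat.card A) A Nat.card_pos.ne' (fun v => card_nsmul_eq_zero')
  have : ∀ a : A, ∃ f : A →+ R, f a = 0 → a = 0 := by
    intro a
    by_cases ha : a = 0
    · exact ⟨0, fun _ => ha⟩
    · have : ¬ ∀ l, χ l a = 0 := fun hh => ha (h a hh)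
      push Not at this
      obtain ⟨l, hl⟩ := this
      exact ⟨χ l, fun hh => absurd hh hl⟩
  choose f hf using this
  exact ⟨f, hf⟩

def FC (G : Type u) [Group G] : Prop := ∀ g : G, {h : G | IsConj g h}.Finite

theorem FC.comm {G : Type u} [Group G] (h : FC G) (g : G) : (Set.range fun x : G => ⁅x, g⁆).Finite := by
  refine ((h g).image (· * g⁻¹)).subset ?_
  rintro _ ⟨x, rfl⟩
  exact ⟨x * g * x⁻¹, isConj_iff.2 ⟨x, rfl⟩, rfl⟩

theorem fin_sigma {ι : Type*} {A : ι → Type*} [∀ i, Finite (A i)] {I : Set ι} (hI : I.Finite) :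
    {l : Σ i, A i | l.1 ∈ I}.Finite := by
  refine (hI.biUnion (t := fun i => Set.range (Sigma.mk i : A i → Σ i, A i))
    fun i _ => Set.finite_range _).subset ?_
  rintro ⟨i, a⟩ hi
  exact Set.mem_biUnion hi ⟨a, rfl⟩

theorem twist {G : Type u} [Group G] (hFC : FC G) (N : Subgroup G) (e : ℕ) (he : e ≠ 0)
    (hc : ∀ a b : G, ⁅a, b⁆ ∈ N) (hp : ∀ a : G, a ^ e ∈ N) {ι : Type u} {F : ι → Type u}
    [∀ i, Group (F i)] [∀ i, Finite (F i)] (ρ : ∀ i, G →* F i)
    (hρ : ∀ i, Function.Surjective (ρ i)) (hf : ∀ w ∈ N, {i | ρ i w ≠ 1}.Finite) :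
    ∃ U : ι → Subgroup G, (∀ i, (U i).Normal ∧ (U i).FiniteIndex) ∧
      (∀ g, {i | g ∉ U i}.Finite) ∧ ∀ i, ∀ w ∈ N, w ∈ U i ↔ ρ i w = 1 := by
  classical
  choose χ hχ using fun i => sep (Additive (Subgroup.center (F i)))
  let good : G → ι → Prop := fun g i => ρ i g ∈ Subgroup.center (F i) ∧ ρ i g ^ e = 1
  have hgood : ∀ g, {i | ¬ good g i}.Finite := by
    intro g
    refine (((hFC.comm g).biUnion (t := fun w => {i | ρ i w ≠ 1}) ?_).union
      (hf _ (hp g))).subset fun i hi => ?_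
    · rintro _ ⟨x, rfl⟩
      exact hf _ (hc x g)
    · by_contra hcon
      simp only [Set.mem_union, Set.mem_iUnion, not_or, not_exists, Set.mem_setOf_eq,
        not_not] at hcon
      apply hi
      refine ⟨Subgroup.mem_center_iff.2 fun y => ?_, by rw [← map_pow]; exact hcon.2⟩
      obtain ⟨x, rfl⟩ := hρ i y
      have := hcon.1 _ ⟨x, rfl⟩
      rw [map_commutatorElement, commutatorElement_eq_one_iff_mul_comm] at this
      exact this
  let Λ := Σ i, Additive (Subgroup.center (F i))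
  let ω : G → Λ → R := fun g l =>
    if h : good g l.1 then χ l.1 l.2 (Additive.ofMul ⟨ρ l.1 g, h.1⟩) else 0
  obtain ⟨P, hP1, hP2⟩ := retr Λ
  have hadd : ∀ g g', P (ω (g * g')) = P (ω g) + P (ω g') := by
    intro g g'
    rw [← map_add, ← sub_eq_zero, ← map_sub]
    refine hP1 _ ((fin_sigma (((hgood g).union (hgood g')).union (hgood (g * g')))).subset ?_)
    rintro ⟨i, a⟩ hl
    by_contra hcon
    simp only [Set.mem_union, not_or, Set.mem_setOf_eq, not_not] at hcon
    apply hl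
    simp only [ω, Pi.sub_apply, Pi.add_apply, dif_pos hcon.1.1, dif_pos hcon.1.2, dif_pos hcon.2]
    rw [← map_add, ← ofMul_mul, sub_eq_zero]
    congr 2
    ext1
    simp
  have hN : ∀ w ∈ N, P (ω w) = 0 := by
    intro w hw
    refine hP1 _ ((fin_sigma (hf w hw)).subset ?_)
    rintro ⟨i, a⟩ hl h1
    apply hl
    simp only [ω]
    split_ifs with h
    · have : (⟨ρ i w, h.1⟩ : Subgroup.center (F i)) = 1 := Subtype.ext h1
      rw [this]
      simp
    · rfl
  have htor : ∀ g, e • P (ω g) = 0 := by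
    intro g
    have : e • ω g = 0 := by
      funext ⟨i, a⟩
      simp only [ω, Pi.smul_apply, Pi.zero_apply]
      split_ifs with h
      · have : (⟨ρ i g, h.1⟩ : Subgroup.center (F i)) ^ e = 1 := Subtype.ext h.2
        rw [← map_nsmul, ← ofMul_pow, this]
        simp
      · simp
    rw [← map_nsmul, this, map_zero]
  let τ : G →* Multiplicative (Λ → R) := MonoidHom.mk' (fun g => Multiplicative.ofAdd (P (ω g)))
    (fun g g' => by rw [hadd]; rfl)
  have hτ : ∀ g, P (ω g) = (τ g).toAdd := fun g => rfl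
  let U : ι → Subgroup G := fun i =>
    { carrier := {g | ∃ h : ρ i g ∈ Subgroup.center (F i),
        ∀ a, (τ g).toAdd ⟨i, a⟩ = χ i a (Additive.ofMul ⟨ρ i g, h⟩)}
      one_mem' := ⟨by simp, fun a => by
        have : (⟨ρ i 1, by simp⟩ : Subgroup.center (F i)) = 1 := Subtype.ext (map_one _)
        rw [this]
        simp⟩
      mul_mem' := by
        rintro g g' ⟨h, hh⟩ ⟨h', hh'⟩
        refine ⟨by rw [map_mul]; exact Subgroup.mul_mem _ h h', fun a => ?_⟩
        rw [map_mul τ, toAdd_mul, Pi.add_apply, hh, hh', ← map_add, ← ofMul_mul]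
        congr 2
        ext1
        simp
      inv_mem' := by
        rintro g ⟨h, hh⟩
        refine ⟨by rw [map_inv]; exact Subgroup.inv_mem _ h, fun a => ?_⟩
        rw [map_inv τ, toAdd_inv, Pi.neg_apply, hh, ← map_neg, ← ofMul_inv]
        congr 2
        ext1
        simp }
  have hU : ∀ i g, ρ i g = 1 → (∀ a, (τ g).toAdd ⟨i, a⟩ = 0) → g ∈ U i := by
    intro i g h1 h2
    refine ⟨by rw [h1]; exact Subgroup.one_mem _, fun a => ?_⟩
    have : (⟨ρ i g, by rw [h1]; exact Subgroup.one_mem _⟩ : Subgroup.center (F i)) = 1 :=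
      Subtype.ext h1
    rw [this, h2]
    simp
  refine ⟨U, fun i => ⟨⟨?_⟩, ?_⟩, fun g => ?_, fun i w hw => ⟨?_, fun h => hU i w h fun a => ?_⟩⟩
  · rintro g ⟨h, hh⟩ k
    have e1 : ρ i (k * g * k⁻¹) = ρ i g := by
      rw [map_mul, map_mul, Subgroup.mem_center_iff.1 h, map_inv]
      simp
    have e2 : τ (k * g * k⁻¹) = τ g := by
      rw [map_mul, map_mul, map_inv, mul_inv_cancel_comm]
    refine ⟨by rw [e1]; exact h, fun a => ?_⟩
    rw [e2, hh]
    congr 2
    exact Subtype.ext e1.symm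
  · refine FI _ (fun g => (ρ i g, fun a => (τ g).toAdd ⟨i, a⟩)) ?_ ?_
    · refine ((Set.finite_univ (α := F i)).prod (Set.Finite.pi' fun _ =>
        AddCircle.finite_torsion (1 : ℝ) (Nat.pos_of_ne_zero he))).subset ?_
      rintro _ ⟨g, rfl⟩
      exact ⟨trivial, fun a => congrFun (htor g) ⟨i, a⟩⟩
    · intro g g' h
      have h1 : ρ i g = ρ i g' := congrArg Prod.fst h
      refine hU i _ (by simp [h1]) fun a => ?_
      have h2 : (τ g).toAdd ⟨i, a⟩ = (τ g').toAdd ⟨i, a⟩ := congrFun (congrArg Prod.snd h) a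
      rw [map_mul, map_inv, toAdd_mul, toAdd_inv, Pi.add_apply, Pi.neg_apply, h2, neg_add_cancel]
  · refine ((hgood g).union ((hP2 (ω g)).image Sigma.fst)).subset fun i hi => ?_
    by_contra hcon
    simp only [Set.mem_union, not_or, Set.mem_setOf_eq, not_not, Set.mem_image, not_exists,
      not_and] at hcon
    refine hi ⟨hcon.1.1, fun a => ?_⟩
    have : P (ω g) ⟨i, a⟩ = ω g ⟨i, a⟩ := by
      by_contra h
      exact hcon.2 _ h rfl
    rw [← hτ, this]
    simp only [ω, dif_pos hcon.1]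
  · rintro ⟨h, hh⟩
    have := hh (Additive.ofMul ⟨ρ i w, h⟩)
    rw [← hτ, hN w hw] at this
    exact congrArg Subtype.val (hχ i _ this.symm)
  · rw [← hτ, hN w hw]
    rfl

end Pool.Agent.KS6_69.FCG
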